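import Pool.Agent.H30.MV.NearIntervalOuterplanar

/-! # Near-interval colorings of finite outerplanar graphs -/

set_option autoImplicit false

set_option linter.unusedSimpArgs false

set_option linter.unusedTactic false

set_option linter.unreachableTactic false

namespace Pool.Agent.Results.MP_3237b1_co.NearIntervalOuterplanar

open Pool.H30.MV.NearIntervalOuterplanar

/-- Every finite outerplanar graph has a near-interval coloring. -/
theorem result {V : Type*} [Finite V] (G : SimpleGraph V) (hG : Outerplanar G) :
    ∃ c : Sym2 V → ℤ, IsNearIntervalColoring G c :=
  Pool.H30.MV.NearIntervalOuterplanar.result G hG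

end Pool.Agent.Results.MP_3237b1_co.NearIntervalOuterplanar
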